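import Pool.Agent.H18.L.Y113.Defs

/-!
# Project GF: elimination of the constants (`T_elim`)
-/

set_option autoImplicit false

namespace Pool.Agent.Y141.GF

open Matrix

theorem det_expand {m : ℕ} {σ : Type} [Fintype σ] [DecidableEq σ] {R : Type} [CommRing R]
    (x : Fin m → σ → R) (v : Fin m → σ → Fin m → R) :
    (Matrix.of fun l j => ∑ b, x l b * v l b j).det =
      ∑ b : Fin m → σ, (∏ l, x l (b l)) * (Matrix.of fun l j => v l (b l) j).det := by
  have h := (Matrix.detRowAlternating (R := R) (n := Fin m)).toMultilinearMap.map_sum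
    (fun l b => x l b • v l b)
  have h1 : (Matrix.of fun l j => ∑ b, x l b * v l b j).det =
      (Matrix.detRowAlternating (R := R) (n := Fin m)).toMultilinearMap
        (fun l => ∑ b, x l b • v l b) := by
    have : (Matrix.of fun l j => ∑ b, x l b * v l b j) = fun l => ∑ b, x l b • v l b := by
      ext l j
      simp [Finset.sum_apply]
    rw [this]
    rfl
  rw [h1, h]
  refine Finset.sum_congr rfl fun b _ => ?_
  have := (Matrix.detRowAlternating (R := R) (n := Fin m)).toMultilinearMap.map_smul_univ
    (fun l => x l (b l)) (fun l => v l (b l))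
  rw [this]
  rfl

theorem t_elim : Pool.Agent.Y113.T_elim := by
  classical
  intro m σ _ x e τ hx he hrel hm
  by_cases hσ : Nonempty σ
  swap
  · refine ⟨⟨0, hm⟩, ?_⟩
    ext j b
    exact absurd ⟨b⟩ hσ
  obtain ⟨b0⟩ := hσ
  -- Lemma A
  have hA : ∀ v : Fin m → σ → Fin m → ℚ,
      (Matrix.of fun l j => ∑ b, (x l b : ℂ) * (v l b j : ℂ)).det = 0 →
      ∀ b : Fin m → σ, (Matrix.of fun l j => v l (b l) j).det = 0 := by
    intro v hv
    rw [det_expand (fun l b => (x l b : ℂ)) (fun l b j => (v l b j : ℂ))] at hv
    rw [Fintype.linearIndependent_iff] at hx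
    refine hx (fun b => (Matrix.of fun l j => v l (b l) j).det) ?_
    have h2 : ((∑ b : Fin m → σ, (Matrix.of fun l j => v l (b l) j).det • ∏ l, x l (b l) : ℝ) : ℂ) = 0 := by
      rw [← hv]
      push_cast
      refine Finset.sum_congr rfl fun b _ => ?_
      rw [Rat.smul_def]
      push_cast
      rw [mul_comm]
      congr 1
    exact_mod_cast h2
  have hx0 : ∀ l b, x l b ≠ 0 := by
    intro l b h0
    have := hx.ne_zero (fun _ => b)
    apply this
    exact Finset.prod_eq_zero (Finset.mem_univ l) h0
  let P : ℕ → Prop := fun ρ => ∃ v : Fin m → σ → Fin m → ℚ, (∀ l : Fin m, (l : ℕ) < ρ → v l = fun b j => τ l j b) ∧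
    (Matrix.of fun l j => ∑ b, (x l b : ℂ) * (v l b j : ℂ)).det ≠ 0
  have hP0 : P 0 := by
    refine ⟨fun l b j => if b = b0 then (if l = j then 1 else 0) else 0, fun l h => absurd h (by omega), ?_⟩
    have : (Matrix.of fun l j : Fin m => ∑ b, (x l b : ℂ) *
        (((fun l b j => if b = b0 then (if l = j then 1 else 0) else 0 : Fin m → σ → Fin m → ℚ) l b j : ℚ) : ℂ)) =
        Matrix.diagonal (fun l => (x l b0 : ℂ)) := by
      ext l j
      simp only [Matrix.of_apply, Matrix.diagonal_apply]
      rw [Finset.sum_eq_single b0]
      · by_cases h : l = j <;> simp [h]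
      · intro b _ hb
        simp [hb]
      · simp
    rw [this, Matrix.det_diagonal]
    refine Finset.prod_ne_zero_iff.mpr fun l _ => ?_
    exact_mod_cast hx0 l b0
  have he0 : e ≠ 0 := by
    intro h
    exact he.ne_zero ⟨0, hm⟩ (by rw [h]; rfl)
  have hPm : ¬ P m := by
    rintro ⟨v, hv, hdet⟩
    have hv' : v = fun l b j => τ l j b := by
      funext l
      exact hv l l.2
    subst hv'
    apply hdet
    rw [← Matrix.exists_mulVec_eq_zero_iff]
    refine ⟨e, he0, ?_⟩
    ext l
    simp only [Matrix.mulVec, dotProduct, Matrix.of_apply, Pi.zero_apply]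
    rw [← hrel l]
    refine Finset.sum_congr rfl fun j _ => ?_
    rw [Finset.sum_mul]
    refine Finset.sum_congr rfl fun b _ => ?_
    ring
  obtain ⟨ρ, hρ1, hρ2⟩ : ∃ ρ, P ρ ∧ ¬ P (ρ + 1) := by
    by_contra hcon
    push Not at hcon
    exact hPm (Nat.rec hP0 (fun n ih => hcon n ih) m)
  obtain ⟨v, hv, hdet⟩ := hρ1
  have hρm : ρ < m := by
    by_contra h
    apply hPm
    refine ⟨v, fun l _ => hv l (by omega), hdet⟩
  refine ⟨⟨ρ, hρm⟩, ?_⟩
  set r : Fin m := ⟨ρ, hρm⟩ with hr
  -- all determinants with rational rows after `ρ`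
  have hB : ∀ (b : Fin m → σ) (s : Fin m → Fin m → ℚ),
      (Matrix.of fun l j : Fin m => if (l : ℕ) ≤ ρ then τ l j (b l) else s l j).det = 0 := by
    intro b s
    by_cases h : (Matrix.of fun l j => ∑ b', (x l b' : ℂ) *
        (((fun l b' j => if (l : ℕ) ≤ ρ then τ l j b' else s l j : Fin m → σ → Fin m → ℚ) l b' j : ℚ) : ℂ)).det = 0
    · exact hA _ h b
    · exfalso
      apply hρ2
      refine ⟨_, ?_, h⟩
      intro l hl
      funext b' j
      simp [show (l : ℕ) ≤ ρ by omega]
  -- the matrix
  set M : Matrix (Fin m) (Fin m) ℂ := Matrix.of fun l j => ∑ b, (x l b : ℂ) * (v l b j : ℂ) with hM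
  -- the coefficients
  have hC : ∀ (b : σ) (i : Fin m), ρ ≤ (i : ℕ) → (M.updateRow i (fun j => (τ r j b : ℂ))).det = 0 := by
    intro bs i hi
    have h1 : M.updateRow i (fun j => (τ r j bs : ℂ)) = Matrix.of fun l j => ∑ b,
        (if l = i then (if b = b0 then 1 else 0) else (x l b : ℂ)) *
          (((if l = i then τ r j bs else v l b j : ℚ)) : ℂ) := by
      ext l j
      simp only [Matrix.updateRow_apply, Matrix.of_apply]
      by_cases h : l = i
      · simp [h]
      · simp [h, hM]
    rw [h1, det_expand (fun l b => (if l = i then (if b = b0 then 1 else 0) else (x l b : ℂ)))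
      (fun l b j => (((if l = i then τ r j bs else v l b j : ℚ)) : ℂ))]
    refine Finset.sum_eq_zero fun b _ => ?_
    have h2 : (Matrix.of fun l j => (((if l = i then τ r j bs else v l (b l) j : ℚ)) : ℂ)).det = 0 := by
      have h3 : (Matrix.of fun l j => (if l = i then τ r j bs else v l (b l) j : ℚ)).det = 0 := by
        have h4 := hB (fun l => if l = r then bs else b l) (fun l j => if l = i then v r (b r) j else v l (b l) j)
        by_cases hir : i = r
        · rw [← h4]
          congr 1
          ext l j
          simp only [Matrix.of_apply]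
          by_cases hl : l = i
          · subst hl
            simp [hir, hr]
          · have hlr : l ≠ r := by rw [← hir]; exact hl
            have hlρ : (l : ℕ) ≠ ρ := fun h => hlr (Fin.ext h)
            by_cases hl' : (l : ℕ) ≤ ρ
            · simp only [hl, hl', hlr, if_false, if_true]
              rw [hv l (by omega)]
            · simp [hl, hl', hlr]
        · have h5 : (Matrix.of fun l j => (if l = i then τ r j bs else v l (b l) j : ℚ)) =
              (Matrix.of fun l j : Fin m => if (l : ℕ) ≤ ρ then τ l j ((fun l => if l = r then bs else b l) l) else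
                (fun l j => if l = i then v r (b r) j else v l (b l) j) l j).submatrix (Equiv.swap i r) id := by
            ext l j
            simp only [Matrix.of_apply, Matrix.submatrix_apply, id]
            by_cases hl : l = i
            · subst hl
              simp [hr]
            · by_cases hlr : l = r
              · subst hlr
                have : ¬ (i : ℕ) ≤ ρ := by
                  intro h
                  apply hir
                  exact Fin.ext (le_antisymm h hi)
                simp [this, hl]
              · rw [Equiv.swap_apply_of_ne_of_ne hl hlr]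
                have hlρ : (l : ℕ) ≠ ρ := fun h => hlr (Fin.ext h)
                by_cases hl' : (l : ℕ) ≤ ρ
                · simp only [hl, hl', hlr, if_false, if_true]
                  rw [hv l (by omega)]
                · simp [hl, hl']
          rw [h5, Matrix.det_permute, h4, mul_zero]
      have := (RingHom.map_det (algebraMap ℚ ℂ) (Matrix.of fun l j => (if l = i then τ r j bs else v l (b l) j : ℚ)))
      rw [h3, map_zero] at this
      rw [this]
      congr 1
    rw [h2, mul_zero]
  -- orthogonality
  have hD : ∀ b : σ, ∑ j, (τ r j b : ℂ) * e j = 0 := by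
    intro b
    set u : Fin m → ℂ := fun j => (τ r j b : ℂ) with hu
    -- `det M • u = u ᵥ* adjugate M ᵥ* M`
    have h1 : M.det • u = (Matrix.vecMul (Matrix.vecMul u M.adjugate) M) := by
      rw [Matrix.vecMul_vecMul, Matrix.adjugate_mul, Matrix.vecMul_smul, Matrix.vecMul_one]
    have h2 : ∀ i, (Matrix.vecMul u M.adjugate) i = (M.updateRow i u).det := by
      intro i
      rw [← Matrix.cramer_transpose_apply, Matrix.cramer_eq_adjugate_mulVec, ← Matrix.adjugate_transpose,
        Matrix.mulVec_transpose]
    have h3 : M.det * ∑ j, u j * e j = 0 := by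
      have h4 : M.det * ∑ j, u j * e j = (M.det • u) ⬝ᵥ e := by
        simp [dotProduct, Finset.mul_sum, mul_assoc]
      rw [h4, h1, ← Matrix.dotProduct_mulVec]
      refine Finset.sum_eq_zero fun i _ => ?_
      by_cases hi : ρ ≤ (i : ℕ)
      · rw [h2 i, hC b i hi, zero_mul]
      · have h5 : (M.mulVec e) i = 0 := by
          simp only [Matrix.mulVec, dotProduct, hM, Matrix.of_apply]
          rw [← hrel i]
          refine Finset.sum_congr rfl fun j _ => ?_
          rw [Finset.sum_mul]
          refine Finset.sum_congr rfl fun b _ => ?_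
          rw [hv i (by omega)]
          ring
        rw [h5, mul_zero]
    rcases mul_eq_zero.mp h3 with h | h
    · exact absurd h hdet
    · exact h
  ext j b
  have := Fintype.linearIndependent_iff.mp he (fun j => τ r j b) (by
    rw [← hD b]
    refine Finset.sum_congr rfl fun j _ => ?_
    rw [Rat.smul_def]) j
  exact this

end Pool.Agent.Y141.GF
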