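import Pool.Agent.H18.L.Y141.GF.Wr
import Pool.Agent.H18.L.Y141.GF.Elim

/-!
# Project GF: bounds for orders and degrees
-/

set_option autoImplicit false

open PowerSeries

namespace Pool.Agent.Y141.GF

variable {K : Type} [Field K]

theorem smul_eq' (p : Polynomial K) (f : K⟦X⟧) : p • f = (p : K⟦X⟧) * f := by
  rw [Algebra.smul_def, PowerSeries.algebraMap_apply']
  simp

instance tf : Module.IsTorsionFree (Polynomial K) K⟦X⟧ := by
  apply Module.IsTorsionFree.of_smul_eq_zero
  intro p f h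
  rw [smul_eq'] at h
  rcases mul_eq_zero.mp h with h | h
  · left
    exact_mod_cast h
  · right
    exact h

/-- the nonzero elements of a finite dimensional space have bounded orders -/
theorem order_bound (F : Submodule K K⟦X⟧) [Module.Finite K F] :
    ∃ c : ℕ, ∀ f ∈ F, f ≠ 0 → ∃ l ≤ c, coeff l f ≠ 0 := by
  let S : ℕ → Submodule K F := fun n =>
    { carrier := {f : F | ∀ l < n, coeff l (f : K⟦X⟧) = 0}
      add_mem' := by
        intro a b ha hb l hl
        rw [Submodule.coe_add, map_add, ha l hl, hb l hl, add_zero]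
      zero_mem' := by
        intro l _
        simp
      smul_mem' := by
        intro c a ha l hl
        rw [Submodule.coe_smul, map_smul, ha l hl, smul_zero] }
  have hS : ∀ n (f : F), f ∈ S n ↔ ∀ l < n, coeff l (f : K⟦X⟧) = 0 := fun n f => Iff.rfl
  obtain ⟨n, hn⟩ := IsArtinian.monotone_stabilizes (R := K) (M := F)
    ⟨fun n => OrderDual.toDual (S n), fun a b hab => by
      change S b ≤ S a
      intro f hf l hl
      exact hf l (by omega)⟩
  refine ⟨n, fun f hf hf0 => ?_⟩
  by_contra hcon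
  push Not at hcon
  apply hf0
  have h1 : (⟨f, hf⟩ : F) ∈ S n := fun l hl => hcon l hl.le
  ext l
  rw [map_zero]
  by_cases h : l ≤ n
  · exact hcon l h
  · have h2 : S n = S (l + 1) := hn (l + 1) (by omega)
    rw [h2] at h1
    exact h1 l (by omega)

/-- coordinates in a `K[X]`-basis, of bounded degree -/
theorem coords (E : Submodule K K⟦X⟧) [Module.Finite K E] :
    ∃ (n : ℕ) (f : Fin n → K⟦X⟧) (c : ℕ), LinearIndependent (Polynomial K) f ∧
      ∀ v ∈ E, ∃ a : Fin n → Polynomial K, (∀ l, (a l).natDegree ≤ c) ∧ v = ∑ l, (a l : K⟦X⟧) * f l := by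
  obtain ⟨s, hs⟩ := Module.Finite.iff_fg.mp (inferInstance : Module.Finite K E)
  set Eh : Submodule (Polynomial K) K⟦X⟧ := Submodule.span (Polynomial K) (s : Set K⟦X⟧) with hEh
  have hfin : Module.Finite (Polynomial K) Eh := Module.Finite.iff_fg.mpr ⟨s, rfl⟩
  have htf : Module.IsTorsionFree (Polynomial K) Eh := inferInstance
  obtain ⟨n, β⟩ := Module.basisOfFiniteTypeTorsionFree' (R := Polynomial K) (M := Eh)
  have hsE : ∀ g : K⟦X⟧, g ∈ s → g ∈ Eh := fun g hg => Submodule.subset_span hg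
  set c : ℕ := s.attach.sup fun g => Finset.univ.sup fun l : Fin n => (β.repr ⟨g.1, hsE g.1 g.2⟩ l).natDegree with hc
  refine ⟨n, fun l => (β l : K⟦X⟧), c, ?_, ?_⟩
  · have h1 := β.linearIndependent
    exact h1.map' Eh.subtype (by simp)
  · intro v hv
    rw [← hs] at hv
    induction hv using Submodule.span_induction with
    | mem g hg =>
      refine ⟨fun l => β.repr ⟨g, hsE g hg⟩ l, ?_, ?_⟩
      · intro l
        have h1 : (β.repr ⟨g, hsE g hg⟩ l).natDegree ≤
            Finset.univ.sup fun l : Fin n => (β.repr ⟨g, hsE g hg⟩ l).natDegree :=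
          Finset.le_sup (f := fun l : Fin n => (β.repr ⟨g, hsE g hg⟩ l).natDegree) (Finset.mem_univ l)
        have h2 := Finset.le_sup (f := fun g : {x // x ∈ s} => Finset.univ.sup fun l : Fin n =>
          (β.repr ⟨g.1, hsE g.1 g.2⟩ l).natDegree) (Finset.mem_attach s ⟨g, hg⟩)
        exact h1.trans h2
      · have h1 := β.sum_repr ⟨g, hsE g hg⟩
        have h2 := congrArg (fun z : Eh => (z : K⟦X⟧)) h1
        simp only [Submodule.coe_sum, Submodule.coe_smul, smul_eq'] at h2
        exact h2.symm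
    | zero => exact ⟨fun _ => 0, by simp, by simp⟩
    | add u v _ _ hu hv =>
      obtain ⟨a, ha1, ha2⟩ := hu
      obtain ⟨b, hb1, hb2⟩ := hv
      refine ⟨fun l => a l + b l, fun l => (Polynomial.natDegree_add_le _ _).trans (max_le (ha1 l) (hb1 l)), ?_⟩
      rw [ha2, hb2, ← Finset.sum_add_distrib]
      refine Finset.sum_congr rfl fun l _ => ?_
      rw [Polynomial.coe_add, add_mul]
    | smul k u _ hu =>
      obtain ⟨a, ha1, ha2⟩ := hu
      refine ⟨fun l => k • a l, fun l => (Polynomial.natDegree_smul_le _ _).trans (ha1 l), ?_⟩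
      rw [ha2, Finset.smul_sum]
      refine Finset.sum_congr rfl fun l _ => ?_
      beta_reduce
      rw [Polynomial.smul_eq_C_mul, Polynomial.coe_mul, Polynomial.coe_C, PowerSeries.smul_eq_C_mul, mul_assoc]

theorem bd0 (E : Submodule K K⟦X⟧) [Module.Finite K E] : ∃ c : ℕ, ∀ v ∈ E, v ≠ 0 →
    ∃ b : Polynomial K, b ≠ 0 ∧ b.natDegree ≤ c ∧ ∀ u ∈ E, ∀ p q : Polynomial K,
      (q : K⟦X⟧) * u = (p : K⟦X⟧) * v → ∃ a : Polynomial K, a.natDegree ≤ c ∧ q * a = p * b := by
  obtain ⟨n, f, c, hf, hE⟩ := coords E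
  refine ⟨c, fun v hv hv0 => ?_⟩
  obtain ⟨β, hβ1, hβ2⟩ := hE v hv
  obtain ⟨l, hl⟩ : ∃ l, β l ≠ 0 := by
    by_contra hcon
    push Not at hcon
    apply hv0
    rw [hβ2]
    exact Finset.sum_eq_zero fun l _ => by rw [hcon l]; simp
  refine ⟨β l, hl, hβ1 l, fun u hu p q h => ?_⟩
  obtain ⟨α, hα1, hα2⟩ := hE u hu
  refine ⟨α l, hα1 l, ?_⟩
  have h1 := Fintype.linearIndependent_iff.mp hf (fun l => q * α l - p * β l) (by
    simp only [smul_eq', Polynomial.coe_sub, Polynomial.coe_mul, sub_mul, Finset.sum_sub_distrib, mul_assoc]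
    rw [← Finset.mul_sum, ← Finset.mul_sum, ← hα2, ← hβ2, h, sub_self]) l
  exact sub_eq_zero.mp h1

/-- expansion at `ξ` -/
noncomputable def phi (ξ : K) : Polynomial K →+* K⟦X⟧ :=
  (Polynomial.coeToPowerSeries.ringHom).comp (Polynomial.taylorAlgHom ξ).toRingHom

theorem phi_apply (ξ : K) (p : Polynomial K) : phi ξ p = (Polynomial.taylor ξ p : K⟦X⟧) := rfl

theorem phi_injective (ξ : K) : Function.Injective (phi ξ) := by
  intro p q h
  rw [phi_apply, phi_apply] at h
  exact Polynomial.taylor_injective ξ (Polynomial.coe_injective K h)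

theorem phi_deriv (ξ : K) (p : Polynomial K) : d⁄dX K (phi ξ p) = phi ξ (Polynomial.derivative p) := by
  rw [phi_apply, phi_apply, PowerSeries.derivative_coe]
  congr 1
  rw [Polynomial.taylor_apply, Polynomial.taylor_apply, Polynomial.derivative_comp]
  simp

theorem constantCoeff_phi (ξ : K) (p : Polynomial K) : constantCoeff (phi ξ p) = p.eval ξ := by
  rw [phi_apply, Polynomial.constantCoeff_coe, Polynomial.taylor_coeff_zero]

theorem bd (ξ : K) (E : Submodule K K⟦X⟧) [Module.Finite K E] : ∃ c : ℕ, ∀ v ∈ E, v ≠ 0 →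
    ∃ b : Polynomial K, b ≠ 0 ∧ b.natDegree ≤ c ∧ ∀ u ∈ E, ∀ p q : Polynomial K,
      phi ξ q * u = phi ξ p * v → ∃ a : Polynomial K, a.natDegree ≤ c ∧ q * a = p * b := by
  obtain ⟨c, hc⟩ := bd0 E
  have hinv : ∀ p : Polynomial K, Polynomial.taylor ξ (Polynomial.taylor (-ξ) p) = p := by
    intro p
    rw [Polynomial.taylor_taylor, add_neg_cancel, Polynomial.taylor_zero]
  refine ⟨c, fun v hv hv0 => ?_⟩
  obtain ⟨b, hb0, hbc, hb⟩ := hc v hv hv0
  refine ⟨Polynomial.taylor (-ξ) b, ?_, ?_, ?_⟩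
  · rw [Ne, Polynomial.taylor_eq_zero]
    exact hb0
  · rw [Polynomial.natDegree_taylor]
    exact hbc
  · intro u hu p q h
    obtain ⟨a, ha1, ha2⟩ := hb u hu (Polynomial.taylor ξ p) (Polynomial.taylor ξ q) h
    refine ⟨Polynomial.taylor (-ξ) a, ?_, ?_⟩
    · rw [Polynomial.natDegree_taylor]
      exact ha1
    · apply Polynomial.taylor_injective ξ
      rw [Polynomial.taylor_mul, Polynomial.taylor_mul, hinv, hinv, ha2]

/-- degree of a determinant -/
theorem natDegree_det_le {r d : ℕ} (A : Matrix (Fin r) (Fin r) (Polynomial K))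
    (h : ∀ i j, (A i j).natDegree ≤ d) : A.det.natDegree ≤ r * d := by
  rw [Matrix.det_apply]
  refine Polynomial.natDegree_sum_le_of_forall_le _ _ fun σ _ => ?_
  rw [Units.smul_def]
  have h1 : ((((Equiv.Perm.sign σ) : ℤˣ) : ℤ) • ∏ i, A (σ i) i).natDegree ≤ (∏ i, A (σ i) i).natDegree :=
    Polynomial.natDegree_smul_le _ _
  refine h1.trans ((Polynomial.natDegree_prod_le _ _).trans ?_)
  calc ∑ i : Fin r, (A (σ i) i).natDegree ≤ ∑ _i : Fin r, d := Finset.sum_le_sum fun i _ => h _ _
    _ = r * d := by simp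

open Pool.Agent.Y113 (nab)

theorem natDegree_nab {N : ℕ} {n δ : ℕ} (T : Polynomial K) (B : Fin N → Fin N → Polynomial K)
    (hT : T.natDegree ≤ δ) (hB : ∀ i j, (B i j).natDegree ≤ δ)
    (P : Fin N → Polynomial K) (hP : ∀ i, (P i).natDegree ≤ n) (k : ℕ) :
    ∀ i, ((nab T B)^[k] P i).natDegree ≤ n + k * δ := by
  induction k with
  | zero => intro i; simpa using hP i
  | succ k ih =>
    intro i
    rw [Function.iterate_succ_apply']
    unfold nab
    refine (Polynomial.natDegree_add_le _ _).trans (max_le ?_ ?_)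
    · refine Polynomial.natDegree_mul_le.trans ?_
      have h1 := Polynomial.natDegree_derivative_le ((nab T B)^[k] P i)
      have h2 := ih i
      unfold nab at h1 h2
      have : (k + 1) * δ = k * δ + δ := by ring
      omega
    · refine Polynomial.natDegree_sum_le_of_forall_le _ _ fun j _ => ?_
      refine Polynomial.natDegree_mul_le.trans ?_
      have h2 := ih j
      have h3 := hB j i
      unfold nab at h2
      have : (k + 1) * δ = k * δ + δ := by ring
      omega

/-- the derivatives of the linear form -/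
theorem iter_form {N : ℕ} (φ : Polynomial K →+* K⟦X⟧) (hφ : ∀ p, d⁄dX K (φ p) = φ (Polynomial.derivative p))
    (T : Polynomial K) (B : Fin N → Fin N → Polynomial K) (y : Fin N → K⟦X⟧)
    (hy : ∀ i, φ T * d⁄dX K (y i) = ∑ j, φ (B i j) * y j) (P : Fin N → Polynomial K) (k : ℕ) :
    (fun f => φ T * d⁄dX K f)^[k] (∑ i, φ (P i) * y i) = ∑ i, φ ((nab T B)^[k] P i) * y i := by
  induction k with
  | zero => rfl
  | succ k ih =>
    rw [Function.iterate_succ_apply', Function.iterate_succ_apply', ih]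
    set Q := (nab T B)^[k] P with hQ
    simp only [map_sum, Derivation.leibniz, smul_eq_mul, nab, map_add, map_mul, Finset.mul_sum, hφ]
    simp only [add_mul, Finset.sum_add_distrib, mul_add, Finset.sum_mul]
    have h1 : ∑ i, φ T * (φ (Q i) * d⁄dX K (y i)) = ∑ x, ∑ i, φ (Q i) * φ (B i x) * y x := by
      rw [Finset.sum_comm]
      refine Finset.sum_congr rfl fun i _ => ?_
      rw [show φ T * (φ (Q i) * d⁄dX K (y i)) = φ (Q i) * (φ T * d⁄dX K (y i)) by ring, hy i, Finset.mul_sum]
      exact Finset.sum_congr rfl fun j _ => by ring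
    rw [h1, add_comm]
    congr 1
    exact Finset.sum_congr rfl fun i _ => by ring

end Pool.Agent.Y141.GF
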